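import Mathlib
import Pool.Agent.Work.MP_f3ac61_co.Numeric

set_option autoImplicit false

open Finset

namespace Pool.Agent.Results.MP_f3ac61_co.EqualTotals

/-- `(a, b)` is a feasible pair on the colour set `Fin r`: two functions from subsets of the colour
set to `[0, 1]`, each summing to `1`, such that `a R₁ = 0` or `b R₂ = 0` whenever `R₁`, `R₂` are
disjoint. -/
def Feasible (r : ℕ) (a b : Finset (Fin r) → ℝ) : Prop :=
  (∀ R, 0 ≤ a R ∧ a R ≤ 1) ∧ (∀ R, 0 ≤ b R ∧ b R ≤ 1) ∧
  (∑ R, a R = 1) ∧ (∑ R, b R = 1) ∧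
  ∀ R₁ R₂ : Finset (Fin r), R₁ ∩ R₂ = ∅ → a R₁ = 0 ∨ b R₂ = 0

/-- The colour total `a_i + b_i`. -/
def total {r : ℕ} (a b : Finset (Fin r) → ℝ) (i : Fin r) : ℝ :=
  (∑ R ∈ Finset.univ.filter (fun R : Finset (Fin r) => i ∈ R), a R) +
  (∑ R ∈ Finset.univ.filter (fun R : Finset (Fin r) => i ∈ R), b R)

/-- The largest colour total, `max_i (a_i + b_i)`. -/
noncomputable def maxTotal {r : ℕ} (a b : Finset (Fin r) → ℝ) : ℝ :=
  ⨆ i : Fin r, total a b i

/-- An optimal solution: a feasible pair whose largest colour total is least among all feasible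
pairs. -/
def Optimal (r : ℕ) (a b : Finset (Fin r) → ℝ) : Prop :=
  Feasible r a b ∧ ∀ a' b' : Finset (Fin r) → ℝ, Feasible r a' b' → maxTotal a b ≤ maxTotal a' b'

/-! ### The main inequality -/

section ineq

variable {r : ℕ}

/-- marginal of `a` at colour `i` -/
def marg (a : Finset (Fin r) → ℝ) (i : Fin r) : ℝ :=
  ∑ R ∈ Finset.univ.filter (fun R : Finset (Fin r) => i ∈ R), a R

theorem marg_eq (a : Finset (Fin r) → ℝ) (i : Fin r) :
    marg a i = ∑ R, if i ∈ R then a R else 0 := by
  unfold marg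
  rw [Finset.sum_filter]

theorem total_eq (a b : Finset (Fin r) → ℝ) (i : Fin r) : total a b i = marg a i + marg b i := rfl

theorem marg_nonneg (a : Finset (Fin r) → ℝ) (ha : ∀ R, 0 ≤ a R) (i : Fin r) : 0 ≤ marg a i :=
  Finset.sum_nonneg (fun R _ => ha R)

theorem le_marg (a : Finset (Fin r) → ℝ) (ha : ∀ R, 0 ≤ a R) (A : Finset (Fin r)) (i : Fin r)
    (hi : i ∈ A) : a A ≤ marg a i := by
  unfold marg
  apply Finset.single_le_sum (f := a) (fun R _ => ha R)
  simp [hi]

theorem sum_inter (b : Finset (Fin r) → ℝ) (A : Finset (Fin r)) (h : Fin r → ℝ) :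
    ∑ B, b B * ∑ i ∈ A ∩ B, h i = ∑ i ∈ A, h i * marg b i := by
  have h1 : ∀ B, b B * ∑ i ∈ A ∩ B, h i = ∑ i ∈ A, (if i ∈ B then b B * h i else 0) := by
    intro B
    rw [Finset.mul_sum, ← Finset.filter_mem_eq_inter, Finset.sum_filter]
  simp_rw [h1]
  rw [Finset.sum_comm]
  apply Finset.sum_congr rfl
  intro i _
  rw [marg_eq, Finset.mul_sum]
  apply Finset.sum_congr rfl
  intro B _
  split_ifs <;> ring

theorem one_lt_card (a b : Finset (Fin r) → ℝ) (ha : ∀ R, 0 ≤ a R) (hb : ∀ R, 0 ≤ b R)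
    (hb1 : ∑ R, b R = 1)
    (hc : ∀ R₁ R₂ : Finset (Fin r), R₁ ∩ R₂ = ∅ → a R₁ = 0 ∨ b R₂ = 0) (g : ℝ)
    (hload : ∀ i, marg a i + marg b i ≤ g) (A : Finset (Fin r)) (hA : a A ≠ 0) :
    1 < g * A.card := by
  have hA0 : 0 < a A := lt_of_le_of_ne (ha A) (Ne.symm hA)
  have h1 : (1 : ℝ) ≤ ∑ B, b B * ∑ i ∈ A ∩ B, (1 : ℝ) := by
    refine le_trans hb1.ge ?_
    apply Finset.sum_le_sum
    intro B _
    by_cases hB : b B = 0
    · simp [hB]
    · have hne : (A ∩ B).Nonempty := by
        rw [Finset.nonempty_iff_ne_empty]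
        intro h
        rcases hc A B h with h' | h'
        · exact hA h'
        · exact hB h'
      have h2 : (1 : ℝ) ≤ ∑ i ∈ A ∩ B, (1 : ℝ) := by
        rw [Finset.sum_const, nsmul_eq_mul, mul_one]
        exact_mod_cast hne.card_pos
      nlinarith [hb B]
  rw [sum_inter] at h1
  have hAne : A.Nonempty := by
    rw [Finset.nonempty_iff_ne_empty]
    rintro rfl
    simp at h1
    linarith
  have h3 : ∑ i ∈ A, 1 * marg b i < ∑ i ∈ A, g := by
    apply Finset.sum_lt_sum_of_nonempty hAne
    intro i hi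
    have := le_marg a ha A i hi
    have := hload i
    linarith
  rw [Finset.sum_const, nsmul_eq_mul] at h3
  linarith

theorem titu (p q α β g : ℝ) (hα : 0 < α) (hβ : 0 < β) (hg : α + β ≤ g) :
    (p + q) ^ 2 ≤ g * (p ^ 2 / β + q ^ 2 / α) := by
  have h1 : (p + q) ^ 2 ≤ (α + β) * (p ^ 2 / β + q ^ 2 / α) := by
    have e : (α + β) * (p ^ 2 / β + q ^ 2 / α) - (p + q) ^ 2 = (α * p - β * q) ^ 2 / (α * β) := by
      field_simp
      ring
    have : 0 ≤ (α * p - β * q) ^ 2 / (α * β) := by positivity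
    linarith
  have h2 : 0 ≤ p ^ 2 / β + q ^ 2 / α := by positivity
  nlinarith

theorem key (a b : Finset (Fin r) → ℝ) (ha : ∀ R, 0 ≤ a R) (hb : ∀ R, 0 ≤ b R)
    (ha1 : ∑ R, a R = 1) (hb1 : ∑ R, b R = 1)
    (hc : ∀ R₁ R₂ : Finset (Fin r), R₁ ∩ R₂ = ∅ → a R₁ = 0 ∨ b R₂ = 0) (g : ℝ) (hg : 0 < g)
    (hload : ∀ i, marg a i + marg b i ≤ g) (P Q : Finset (Fin r) → ℝ) :
    2 * (∑ A, a A * P A) * (∑ B, b B * Q B) ≤
      ∑ A, a A * (P A ^ 2 * (g * A.card - 1)) + ∑ B, b B * (Q B ^ 2 * (g * B.card - 1)) := by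
  have hα := marg_nonneg a ha
  have hβ := marg_nonneg b hb
  -- pointwise inequality
  have h1 : ∀ A B, a A * (b B * (P A + Q B) ^ 2) ≤
      g * (a A * (b B * ∑ i ∈ A ∩ B, (P A ^ 2 / marg b i)))
      + g * (b B * (a A * ∑ i ∈ B ∩ A, (Q B ^ 2 / marg a i))) := by
    intro A B
    by_cases hA : a A = 0
    · simp [hA]
    by_cases hB : b B = 0
    · simp [hB]
    have hA0 : 0 < a A := lt_of_le_of_ne (ha A) (Ne.symm hA)
    have hB0 : 0 < b B := lt_of_le_of_ne (hb B) (Ne.symm hB)
    have hne : (A ∩ B).Nonempty := by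
      rw [Finset.nonempty_iff_ne_empty]
      intro h
      rcases hc A B h with h' | h'
      · exact hA h'
      · exact hB h'
    obtain ⟨i, hi⟩ := hne
    have hiA : i ∈ A := (Finset.mem_inter.mp hi).1
    have hiB : i ∈ B := (Finset.mem_inter.mp hi).2
    have hαi : 0 < marg a i := lt_of_lt_of_le hA0 (le_marg a ha A i hiA)
    have hβi : 0 < marg b i := lt_of_lt_of_le hB0 (le_marg b hb B i hiB)
    have h2 : P A ^ 2 / marg b i ≤ ∑ i ∈ A ∩ B, (P A ^ 2 / marg b i) :=
      Finset.single_le_sum (f := fun i => P A ^ 2 / marg b i)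
        (fun j _ => div_nonneg (sq_nonneg _) (hβ j)) hi
    have h3 : Q B ^ 2 / marg a i ≤ ∑ i ∈ B ∩ A, (Q B ^ 2 / marg a i) :=
      Finset.single_le_sum (f := fun i => Q B ^ 2 / marg a i)
        (fun j _ => div_nonneg (sq_nonneg _) (hα j)) (Finset.mem_inter.mpr ⟨hiB, hiA⟩)
    have h4 := titu (P A) (Q B) (marg a i) (marg b i) g hαi hβi (hload i)
    have h5 : (P A + Q B) ^ 2 ≤ g * ((∑ i ∈ A ∩ B, (P A ^ 2 / marg b i)) +
        ∑ i ∈ B ∩ A, (Q B ^ 2 / marg a i)) := by
      calc (P A + Q B) ^ 2 ≤ _ := h4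
        _ ≤ _ := by gcongr
    calc a A * (b B * (P A + Q B) ^ 2) ≤ a A * (b B * (g * ((∑ i ∈ A ∩ B, (P A ^ 2 / marg b i)) +
        ∑ i ∈ B ∩ A, (Q B ^ 2 / marg a i)))) := by gcongr
      _ = _ := by ring
  -- sum it
  have h2 : ∑ A, ∑ B, a A * (b B * (P A + Q B) ^ 2) ≤
      ∑ A, ∑ B, (g * (a A * (b B * ∑ i ∈ A ∩ B, (P A ^ 2 / marg b i)))
      + g * (b B * (a A * ∑ i ∈ B ∩ A, (Q B ^ 2 / marg a i)))) :=
    Finset.sum_le_sum (fun A _ => Finset.sum_le_sum (fun B _ => h1 A B))
  -- right side, first part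
  have h3 : ∀ A, ∑ B, g * (a A * (b B * ∑ i ∈ A ∩ B, (P A ^ 2 / marg b i)))
      ≤ g * (a A * (P A ^ 2 * A.card)) := by
    intro A
    rw [← Finset.mul_sum, ← Finset.mul_sum, sum_inter]
    have h4 : ∑ i ∈ A, P A ^ 2 / marg b i * marg b i ≤ ∑ i ∈ A, P A ^ 2 := by
      apply Finset.sum_le_sum
      intro i _
      rcases (hβ i).eq_or_lt with h | h
      · rw [← h]; simp; positivity
      · rw [div_mul_cancel₀ _ h.ne']
    rw [Finset.sum_const, nsmul_eq_mul] at h4
    have h5 : ∑ i ∈ A, P A ^ 2 / marg b i * marg b i ≤ P A ^ 2 * A.card := by linarith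
    have := ha A
    gcongr
  have h3' : ∀ B, ∑ A, g * (b B * (a A * ∑ i ∈ B ∩ A, (Q B ^ 2 / marg a i)))
      ≤ g * (b B * (Q B ^ 2 * B.card)) := by
    intro B
    rw [← Finset.mul_sum, ← Finset.mul_sum, sum_inter]
    have h4 : ∑ i ∈ B, Q B ^ 2 / marg a i * marg a i ≤ ∑ i ∈ B, Q B ^ 2 := by
      apply Finset.sum_le_sum
      intro i _
      rcases (hα i).eq_or_lt with h | h
      · rw [← h]; simp; positivity
      · rw [div_mul_cancel₀ _ h.ne']
    rw [Finset.sum_const, nsmul_eq_mul] at h4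
    have h5 : ∑ i ∈ B, Q B ^ 2 / marg a i * marg a i ≤ Q B ^ 2 * B.card := by linarith
    have := hb B
    gcongr
  have h6 : ∑ A, ∑ B, (g * (a A * (b B * ∑ i ∈ A ∩ B, (P A ^ 2 / marg b i)))
      + g * (b B * (a A * ∑ i ∈ B ∩ A, (Q B ^ 2 / marg a i)))) ≤
      ∑ A, g * (a A * (P A ^ 2 * A.card)) + ∑ B, g * (b B * (Q B ^ 2 * B.card)) := by
    simp_rw [Finset.sum_add_distrib]
    apply add_le_add
    · exact Finset.sum_le_sum (fun A _ => h3 A)
    · rw [Finset.sum_comm]
      exact Finset.sum_le_sum (fun B _ => h3' B)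
  -- left side
  have h7 : ∑ A, ∑ B, a A * (b B * (P A + Q B) ^ 2) =
      ∑ A, a A * P A ^ 2 + 2 * (∑ A, a A * P A) * (∑ B, b B * Q B) + ∑ B, b B * Q B ^ 2 := by
    have e1 : ∀ A, ∑ B, a A * (b B * (P A + Q B) ^ 2) =
        a A * P A ^ 2 * (∑ B, b B) + 2 * (a A * P A) * (∑ B, b B * Q B)
          + a A * ∑ B, b B * Q B ^ 2 := by
      intro A
      rw [Finset.mul_sum, Finset.mul_sum, Finset.mul_sum, ← Finset.sum_add_distrib,
        ← Finset.sum_add_distrib]
      apply Finset.sum_congr rfl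
      intro B _
      ring
    simp_rw [e1, hb1]
    rw [Finset.sum_add_distrib, Finset.sum_add_distrib, ← Finset.sum_mul, ← Finset.sum_mul,
      ← Finset.sum_mul, ha1, ← Finset.mul_sum]
    ring
  have h8 : ∑ A, a A * (P A ^ 2 * (g * A.card - 1)) =
      ∑ A, g * (a A * (P A ^ 2 * A.card)) - ∑ A, a A * P A ^ 2 := by
    rw [← Finset.sum_sub_distrib]
    apply Finset.sum_congr rfl
    intro A _
    ring
  have h9 : ∑ B, b B * (Q B ^ 2 * (g * B.card - 1)) =
      ∑ B, g * (b B * (Q B ^ 2 * B.card)) - ∑ B, b B * Q B ^ 2 := by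
    rw [← Finset.sum_sub_distrib]
    apply Finset.sum_congr rfl
    intro B _
    ring
  rw [h8, h9]
  linarith

theorem lin_sum (a : Finset (Fin r) → ℝ) (g c : ℝ) :
    ∑ A, a A * (c * (1 / (g * (A.card : ℝ) - 1))) = c * ∑ A, a A * (1 / (g * (A.card : ℝ) - 1)) := by
  rw [Finset.mul_sum]
  apply Finset.sum_congr rfl
  intro A _
  ring

theorem sq_sum (a : Finset (Fin r) → ℝ) (g : ℝ) (hA : ∀ A, a A ≠ 0 → 1 < g * A.card) (c : ℝ) :
    ∑ A, a A * ((c * (1 / (g * (A.card : ℝ) - 1))) ^ 2 * (g * A.card - 1)) =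
      c ^ 2 * ∑ A, a A * (1 / (g * (A.card : ℝ) - 1)) := by
  rw [Finset.mul_sum]
  apply Finset.sum_congr rfl
  intro A _
  by_cases h : a A = 0
  · simp [h]
  · have := hA A h
    have h2 : g * (A.card : ℝ) - 1 ≠ 0 := by linarith
    field_simp

theorem UW_le_one (a b : Finset (Fin r) → ℝ) (ha : ∀ R, 0 ≤ a R) (hb : ∀ R, 0 ≤ b R)
    (ha1 : ∑ R, a R = 1) (hb1 : ∑ R, b R = 1)
    (hc : ∀ R₁ R₂ : Finset (Fin r), R₁ ∩ R₂ = ∅ → a R₁ = 0 ∨ b R₂ = 0) (g : ℝ) (hg : 0 < g)
    (hload : ∀ i, marg a i + marg b i ≤ g)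
    (hA : ∀ A, a A ≠ 0 → 1 < g * A.card) (hB : ∀ B, b B ≠ 0 → 1 < g * B.card) :
    (∑ A, a A * (1 / (g * A.card - 1))) * (∑ B, b B * (1 / (g * B.card - 1))) ≤ 1 := by
  set U := ∑ A, a A * (1 / (g * A.card - 1)) with hU
  set W := ∑ B, b B * (1 / (g * B.card - 1)) with hW
  have hUpos : 0 < U := by
    apply Finset.sum_pos'
    · intro A _
      by_cases h : a A = 0
      · simp [h]
      · have := hA A h
        have := ha A
        have h2 : 0 < g * (A.card : ℝ) - 1 := by linarith
        positivity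
    · by_contra hcon
      push Not at hcon
      have : ∑ A, a A ≤ 0 := by
        apply Finset.sum_nonpos
        intro A _
        by_cases h : a A = 0
        · rw [h]
        · exfalso
          have h1 := hA A h
          have h2 : 0 < g * (A.card : ℝ) - 1 := by linarith
          have h3 : 0 < a A := lt_of_le_of_ne (ha A) (Ne.symm h)
          have h4 := hcon A (Finset.mem_univ A)
          have h5 : 0 < a A * (1 / (g * A.card - 1)) := by positivity
          linarith
      linarith
  have hWpos : 0 < W := by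
    apply Finset.sum_pos'
    · intro A _
      by_cases h : b A = 0
      · simp [h]
      · have := hB A h
        have := hb A
        have h2 : 0 < g * (A.card : ℝ) - 1 := by linarith
        positivity
    · by_contra hcon
      push Not at hcon
      have : ∑ A, b A ≤ 0 := by
        apply Finset.sum_nonpos
        intro A _
        by_cases h : b A = 0
        · rw [h]
        · exfalso
          have h1 := hB A h
          have h2 : 0 < g * (A.card : ℝ) - 1 := by linarith
          have h3 : 0 < b A := lt_of_le_of_ne (hb A) (Ne.symm h)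
          have h4 := hcon A (Finset.mem_univ A)
          have h5 : 0 < b A * (1 / (g * A.card - 1)) := by positivity
          linarith
      linarith
  have h1 := key a b ha hb ha1 hb1 hc g hg hload (fun A => W * (1 / (g * A.card - 1)))
    (fun B => U * W * (1 / (g * B.card - 1)))
  have e1 := lin_sum a g W
  have e2 := lin_sum b g (U * W)
  have e3 := sq_sum a g hA W
  have e4 := sq_sum b g hB (U * W)
  rw [← hU] at e1 e3
  rw [← hW] at e2 e4
  have h1' : 2 * (∑ A, a A * (W * (1 / (g * (A.card : ℝ) - 1)))) *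
      (∑ B, b B * (U * W * (1 / (g * (B.card : ℝ) - 1)))) ≤
      ∑ A, a A * ((W * (1 / (g * (A.card : ℝ) - 1))) ^ 2 * (g * A.card - 1)) +
      ∑ B, b B * ((U * W * (1 / (g * (B.card : ℝ) - 1))) ^ 2 * (g * B.card - 1)) := h1
  rw [e1, e2, e3, e4] at h1'
  have h2 : (W ^ 2 * U) * (U * W) ≤ (W ^ 2 * U) * 1 := by nlinarith
  exact le_of_mul_le_mul_left h2 (by positivity)

theorem floor_data (a : Finset (Fin r) → ℝ) (ha : ∀ R, 0 ≤ a R) (ha1 : ∑ R, a R = 1) (g : ℝ)
    (hg : 0 < g) (hA : ∀ A, a A ≠ 0 → 1 < g * A.card) :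
    ∃ (s : ℕ) (θ : ℝ), 0 ≤ θ ∧ θ < 1 ∧ 1 < g * s ∧ ∑ A, a A * (A.card : ℝ) = s + θ ∧
      (g * (s + 1) - 1 - g * θ) / ((g * s - 1) * (g * (s + 1) - 1)) ≤
        ∑ A, a A * (1 / (g * A.card - 1)) := by
  set X := ∑ A, a A * (A.card : ℝ) with hX
  have hX0 : 0 ≤ X := Finset.sum_nonneg (fun A _ => mul_nonneg (ha A) (by positivity))
  have hs : 1 < g * (⌊X⌋₊ : ℝ) := by
    by_contra hcon
    push Not at hcon
    have h1 : ∑ A, a A * ((⌊X⌋₊ : ℝ) + 1) ≤ X := by
      rw [hX]
      apply Finset.sum_le_sum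
      intro A _
      by_cases h : a A = 0
      · simp [h]
      · have h2 := hA A h
        have h3 : g * (⌊X⌋₊ : ℝ) < g * A.card := lt_of_le_of_lt hcon h2
        have h4 : (⌊X⌋₊ : ℝ) < A.card := lt_of_mul_lt_mul_left h3 hg.le
        have h5 : ⌊X⌋₊ + 1 ≤ A.card := by exact_mod_cast h4
        have h6 : ((⌊X⌋₊ : ℝ) + 1) ≤ A.card := by exact_mod_cast h5
        exact mul_le_mul_of_nonneg_left h6 (ha A)
    rw [← Finset.sum_mul, ha1, one_mul] at h1
    have := Nat.lt_floor_add_one X
    linarith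
  refine ⟨⌊X⌋₊, X - ⌊X⌋₊, ?_, ?_, hs, by ring, ?_⟩
  · have := Nat.floor_le hX0
    linarith
  · have := Nat.lt_floor_add_one X
    linarith
  · set s := ⌊X⌋₊
    have hu0 : 0 < g * (s : ℝ) - 1 := by linarith
    have hu1 : 0 < g * ((s : ℝ) + 1) - 1 := by nlinarith
    have e : (g * ((s : ℝ) + 1) - 1 - g * (X - s)) / ((g * s - 1) * (g * (s + 1) - 1)) =
        ∑ A, a A * ((g * ((s : ℝ) + 1) - 1 - g * ((A.card : ℝ) - s)) /
          ((g * s - 1) * (g * (s + 1) - 1))) := by
      have e1 : ∀ A, a A * ((g * ((s : ℝ) + 1) - 1 - g * ((A.card : ℝ) - s)) /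
          ((g * s - 1) * (g * (s + 1) - 1))) =
          a A * ((g * ((s : ℝ) + 1) - 1 + g * s) / ((g * s - 1) * (g * (s + 1) - 1)))
          - (a A * (A.card : ℝ)) * (g / ((g * s - 1) * (g * (s + 1) - 1))) := by
        intro A
        ring
      simp_rw [e1]
      rw [Finset.sum_sub_distrib, ← Finset.sum_mul, ← Finset.sum_mul, ha1, ← hX]
      ring
    rw [e]
    apply Finset.sum_le_sum
    intro A _
    by_cases h : a A = 0
    · simp [h]
    · exact mul_le_mul_of_nonneg_left
        (Pool.Agent.Work.MP_f3ac61_co.chord g hg s A.card hs (hA A h)) (ha A)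

theorem sum_marg (a : Finset (Fin r) → ℝ) : ∑ i, marg a i = ∑ A, a A * (A.card : ℝ) := by
  simp_rw [marg_eq]
  rw [Finset.sum_comm]
  apply Finset.sum_congr rfl
  intro A _
  rw [← Finset.sum_filter, Finset.sum_const, nsmul_eq_mul, mul_comm]
  congr 2
  simp

/-- If not all loads are tight then `Good r g`. -/
theorem good_of_slack (a b : Finset (Fin r) → ℝ) (hf : Feasible r a b) (g : ℝ)
    (hload : ∀ i, total a b i ≤ g) (i₀ : Fin r) (hi₀ : total a b i₀ < g) :
    0 < g ∧ Pool.Agent.Work.MP_f3ac61_co.Good r g := by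
  obtain ⟨ha', hb', ha1, hb1, hc⟩ := hf
  have ha : ∀ R, 0 ≤ a R := fun R => (ha' R).1
  have hb : ∀ R, 0 ≤ b R := fun R => (hb' R).1
  have hc' : ∀ R₁ R₂ : Finset (Fin r), R₁ ∩ R₂ = ∅ → b R₁ = 0 ∨ a R₂ = 0 := by
    intro R₁ R₂ h
    rw [Finset.inter_comm] at h
    exact (hc R₂ R₁ h).symm
  have hload1 : ∀ i, marg a i + marg b i ≤ g := hload
  have hload2 : ∀ i, marg b i + marg a i ≤ g := fun i => by
    have := hload1 i
    linarith
  have hg : 0 < g := by
    have h1 := marg_nonneg a ha i₀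
    have h2 := marg_nonneg b hb i₀
    have h3 : marg a i₀ + marg b i₀ < g := hi₀
    linarith
  refine ⟨hg, ?_⟩
  have hA : ∀ A, a A ≠ 0 → 1 < g * A.card := fun A h =>
    one_lt_card a b ha hb hb1 hc g hload1 A h
  have hB : ∀ A, b A ≠ 0 → 1 < g * A.card := fun A h =>
    one_lt_card b a hb ha ha1 hc' g hload2 A h
  have hUW := UW_le_one a b ha hb ha1 hb1 hc g hg hload1 hA hB
  obtain ⟨s, θ, hθ0, hθ1, hs, hX, hU⟩ := floor_data a ha ha1 g hg hA
  obtain ⟨k, η, hη0, hη1, hk, hY, hW⟩ := floor_data b hb hb1 g hg hB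
  have hu0 : 0 < g * (s : ℝ) - 1 := by linarith
  have hu1 : 0 < g * ((s : ℝ) + 1) - 1 := by nlinarith
  have hv0 : 0 < g * (k : ℝ) - 1 := by linarith
  have hv1 : 0 < g * ((k : ℝ) + 1) - 1 := by nlinarith
  have hun : 0 < g * ((s : ℝ) + 1) - 1 - g * θ := by nlinarith
  have hvn : 0 < g * ((k : ℝ) + 1) - 1 - g * η := by nlinarith
  have hprod : (g * ((s : ℝ) + 1) - 1 - g * θ) / ((g * s - 1) * (g * (s + 1) - 1)) *
      ((g * ((k : ℝ) + 1) - 1 - g * η) / ((g * k - 1) * (g * (k + 1) - 1))) ≤ 1 := by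
    refine le_trans ?_ hUW
    have p1 : 0 ≤ (g * ((k : ℝ) + 1) - 1 - g * η) / ((g * k - 1) * (g * (k + 1) - 1)) := by
      positivity
    have p2 : 0 ≤ (g * ((s : ℝ) + 1) - 1 - g * θ) / ((g * s - 1) * (g * (s + 1) - 1)) := by
      positivity
    exact mul_le_mul hU hW p1 (p2.trans hU)
  rw [div_mul_div_comm, div_le_one (by positivity)] at hprod
  apply Pool.Agent.Work.MP_f3ac61_co.numeric r g hg s k θ η hθ0 hθ1.le hη0 hη1.le hs hk hprod
  rw [← hX, ← hY, ← sum_marg, ← sum_marg, ← Finset.sum_add_distrib]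
  have h1 : ∑ i, (marg a i + marg b i) < ∑ _i : Fin r, g := by
    apply Finset.sum_lt_sum
    · intro i _
      exact hload1 i
    · exact ⟨i₀, Finset.mem_univ _, hi₀⟩
  rw [Finset.sum_const, Finset.card_univ, Fintype.card_fin, nsmul_eq_mul] at h1
  exact h1

end ineq

/-! ### The construction -/

section construction

variable {r : ℕ}

/-- push-forward of a weight function along a set-valued map -/
def push {Ω : Type} [Fintype Ω] (p : Ω → ℝ) (S : Ω → Finset (Fin r))
    (R : Finset (Fin r)) : ℝ :=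
  ∑ ω ∈ Finset.univ.filter (fun ω => S ω = R), p ω

theorem push_sum {Ω : Type} [Fintype Ω] (p : Ω → ℝ) (S : Ω → Finset (Fin r)) :
    ∑ R, push p S R = ∑ ω, p ω := by
  unfold push
  exact Finset.sum_fiberwise _ _ _

theorem push_nonneg {Ω : Type} [Fintype Ω] (p : Ω → ℝ) (hp : ∀ ω, 0 ≤ p ω)
    (S : Ω → Finset (Fin r)) (R : Finset (Fin r)) : 0 ≤ push p S R :=
  Finset.sum_nonneg (fun ω _ => hp ω)

theorem push_le_one {Ω : Type} [Fintype Ω] (p : Ω → ℝ) (hp : ∀ ω, 0 ≤ p ω) (h1 : ∑ ω, p ω = 1)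
    (S : Ω → Finset (Fin r)) (R : Finset (Fin r)) : push p S R ≤ 1 := by
  rw [← h1]
  exact Finset.sum_le_univ_sum_of_nonneg hp

theorem push_ne {Ω : Type} [Fintype Ω] (p : Ω → ℝ) (S : Ω → Finset (Fin r))
    (R : Finset (Fin r)) (h : push p S R ≠ 0) : ∃ ω, S ω = R ∧ p ω ≠ 0 := by
  obtain ⟨ω, hω, hne⟩ := Finset.exists_ne_zero_of_sum_ne_zero h
  exact ⟨ω, (Finset.mem_filter.mp hω).2, hne⟩

theorem push_marg {Ω : Type} [Fintype Ω] (p : Ω → ℝ) (S : Ω → Finset (Fin r)) (i : Fin r) :
    marg (push p S) i = ∑ ω, if i ∈ S ω then p ω else 0 := by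
  rw [marg_eq]
  have h1 : ∀ R : Finset (Fin r), (if i ∈ R then push p S R else 0) =
      ∑ ω ∈ Finset.univ.filter (fun ω => S ω = R), (if i ∈ S ω then p ω else 0) := by
    intro R
    split_ifs with h
    · unfold push
      apply Finset.sum_congr rfl
      intro ω hω
      rw [(Finset.mem_filter.mp hω).2, if_pos h]
    · symm
      apply Finset.sum_eq_zero
      intro ω hω
      rw [(Finset.mem_filter.mp hω).2, if_neg h]
  simp_rw [h1]
  exact Finset.sum_fiberwise _ _ _

/-- Feasible pair from a partition into blocks. -/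
theorem construct {J : Type} [Fintype J] [DecidableEq J] (f : Fin r → J) (w : J → ℝ) (m : J → ℕ)
    (hw0 : ∀ j, 0 ≤ w j) (hw1 : ∑ j, w j = 1)
    (hm : ∀ j, (Finset.univ.filter (fun i => f i = j)).card = m j) (hpos : ∀ j, 0 < m j) :
    ∃ a b : Finset (Fin r) → ℝ, Feasible r a b ∧
      ∀ i, total a b i = w (f i) + 1 / (m (f i) : ℝ) := by
  classical
  set T : Finset (J → Fin r) :=
    Fintype.piFinset (fun j => Finset.univ.filter (fun i => f i = j)) with hT
  have hTmem : ∀ c, c ∈ T ↔ ∀ j, f (c j) = j := by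
    intro c
    rw [hT, Fintype.mem_piFinset]
    simp
  have hTcard : (T.card : ℝ) = ∏ j, (m j : ℝ) := by
    rw [hT, Fintype.card_piFinset]
    push_cast
    apply Finset.prod_congr rfl
    intro j _
    rw [hm j]
  have hTpos : (0 : ℝ) < T.card := by
    rw [hTcard]
    apply Finset.prod_pos
    intro j _
    exact_mod_cast hpos j
  set p : (J → Fin r) → ℝ := fun c => if c ∈ T then 1 / (T.card : ℝ) else 0 with hp
  have hp0 : ∀ c, 0 ≤ p c := by
    intro c
    rw [hp]
    simp only []
    split_ifs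
    · positivity
    · exact le_refl 0
  have hp1 : ∑ c, p c = 1 := by
    rw [hp, ← Finset.sum_filter, Finset.sum_const, nsmul_eq_mul, Finset.filter_mem_eq_inter,
      Finset.univ_inter]
    field_simp
  refine ⟨push w (fun j => Finset.univ.filter (fun i => f i = j)),
    push p (fun c => Finset.univ.image c), ⟨?_, ?_, ?_, ?_, ?_⟩, ?_⟩
  · intro R
    exact ⟨push_nonneg _ hw0 _ _, push_le_one _ hw0 hw1 _ _⟩
  · intro R
    exact ⟨push_nonneg _ hp0 _ _, push_le_one _ hp0 hp1 _ _⟩
  · rw [push_sum, hw1]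
  · rw [push_sum, hp1]
  · intro R₁ R₂ hdis
    by_contra hcon
    push Not at hcon
    obtain ⟨j, hj, -⟩ := push_ne _ _ _ hcon.1
    obtain ⟨c, hc, hcne⟩ := push_ne _ _ _ hcon.2
    have hcT : c ∈ T := by
      by_contra h
      apply hcne
      rw [hp]
      simp [h]
    have h1 : c j ∈ R₁ ∩ R₂ := by
      rw [Finset.mem_inter, ← hj, ← hc]
      constructor
      · simp only [Finset.mem_filter, Finset.mem_univ, true_and]
        exact (hTmem c).mp hcT j
      · simp only [Finset.mem_image, Finset.mem_univ, true_and]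
        exact ⟨j, rfl⟩
    rw [hdis] at h1
    simp at h1
  · intro i
    rw [total_eq, push_marg, push_marg]
    congr 1
    · have : ∀ j, (if i ∈ Finset.univ.filter (fun i => f i = j) then w j else 0) =
          if f i = j then w j else 0 := by
        intro j
        simp
      simp_rw [this]
      simp
    · -- marginal of the transversals
      have h1 : ∀ c, (if i ∈ Finset.univ.image c then p c else 0) =
          if c ∈ Fintype.piFinset (fun j => if j = f i then {i} else
            Finset.univ.filter (fun i => f i = j)) then 1 / (T.card : ℝ) else 0 := by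
        intro c
        by_cases hcT : c ∈ T
        · have hp' : p c = 1 / (T.card : ℝ) := by rw [hp]; simp [hcT]
          rw [hp']
          congr 1
          rw [Fintype.mem_piFinset]
          have hc := (hTmem c).mp hcT
          apply propext
          constructor
          · intro h j
            obtain ⟨j', -, hj'⟩ := Finset.mem_image.mp h
            split_ifs with hji
            · have : j' = j := by rw [hji, ← hj', hc j']
              rw [← this, hj']
              exact Finset.mem_singleton_self i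
            · simp [hc j]
          · intro h
            have := h (f i)
            rw [if_pos rfl, Finset.mem_singleton] at this
            rw [Finset.mem_image]
            exact ⟨f i, Finset.mem_univ _, this⟩
        · have hp' : p c = 0 := by rw [hp]; simp [hcT]
          rw [hp', ite_self, if_neg]
          intro h
          apply hcT
          rw [hTmem]
          intro j
          have h2 := (Fintype.mem_piFinset.mp h) j
          split_ifs at h2 with hji
          · rw [Finset.mem_singleton] at h2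
            rw [h2, hji]
          · simpa using h2
      simp_rw [h1]
      rw [← Finset.sum_filter, Finset.sum_const, nsmul_eq_mul, Finset.filter_mem_eq_inter,
        Finset.univ_inter, Fintype.card_piFinset]
      have h2 : ∀ j, ((if j = f i then ({i} : Finset (Fin r)) else
            Finset.univ.filter (fun i => f i = j)).card : ℝ) = if j = f i then 1 else (m j : ℝ) := by
        intro j
        split_ifs
        · simp
        · rw [hm j]
      push_cast
      simp_rw [h2]
      rw [hTcard]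
      have h3 : ∏ j, (m j : ℝ) = m (f i) * ∏ j, (if j = f i then 1 else (m j : ℝ)) := by
        have : ∀ j, (m j : ℝ) = (if j = f i then (m (f i) : ℝ) else 1) *
            (if j = f i then 1 else (m j : ℝ)) := by
          intro j
          split_ifs with h
          · rw [h]; ring
          · ring
        conv_lhs => rw [Finset.prod_congr rfl (fun j _ => this j)]
        rw [Finset.prod_mul_distrib, Finset.prod_ite_eq']
        simp
      rw [h3]
      have h4 : (m (f i) : ℝ) ≠ 0 := by
        have := hpos (f i)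
        positivity
      have h5 : ∏ j, (if j = f i then 1 else (m j : ℝ)) ≠ 0 := by
        apply Finset.prod_ne_zero_iff.mpr
        intro j _
        split_ifs
        · exact one_ne_zero
        · have := hpos j
          positivity
      field_simp

/-- A good partition gives a feasible pair all of whose colour totals are below `g`. -/
theorem exists_of_good (g : ℝ) (hg : 0 < g) (h : Pool.Agent.Work.MP_f3ac61_co.Good r g) :
    ∃ a b : Finset (Fin r) → ℝ, Feasible r a b ∧ ∀ i, total a b i < g := by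
  obtain ⟨k, s, q, hk, hs, hqk, hr, hgs, hgood⟩ := h
  set m : Fin k → ℕ := fun j => if j.val < q then s + 1 else s with hm
  have hsR : (0 : ℝ) < s := by exact_mod_cast hs
  have hcountN : ∑ j, m j = r := by
    rw [hm, hr, Fin.sum_univ_eq_sum_range (fun j => if j < q then s + 1 else s) k]
    rw [Finset.sum_ite]
    have h1 : (Finset.range k).filter (fun j => j < q) = Finset.range q := by
      ext x
      simp
      omega
    have h2 : (Finset.range k).filter (fun j => ¬ j < q) = Finset.range k \ Finset.range q := by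
      ext x
      simp
    rw [h1, h2, Finset.sum_const, Finset.sum_const, Finset.card_range,
      Finset.card_sdiff_of_subset (by intro x; simp; omega), Finset.card_range, Finset.card_range]
    simp only [smul_eq_mul]
    obtain ⟨d, rfl⟩ := Nat.exists_eq_add_of_le hqk
    simp
    ring
  have hcard : Fintype.card (Fin r) = Fintype.card (Σ j : Fin k, Fin (m j)) := by
    rw [Fintype.card_sigma]
    simp [hcountN]
  let e : Fin r ≃ (Σ j : Fin k, Fin (m j)) := Fintype.equivOfCardEq hcard
  set f : Fin r → Fin k := fun i => (e i).1 with hf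
  have hfib : ∀ j, (Finset.univ.filter (fun i => f i = j)).card = m j := by
    intro j
    have h1 : (Finset.univ.filter (fun i => f i = j)).card =
        (Finset.univ : Finset (Fin (m j))).card := by
      symm
      apply Finset.card_bij (fun (x : Fin (m j)) _ => e.symm ⟨j, x⟩)
      · intro x _
        simp [hf]
      · intro x _ y _ hxy
        have := e.symm.injective hxy
        simpa using this
      · intro i hi
        have hij : (e i).1 = j := by simpa [hf] using hi
        refine ⟨hij ▸ (e i).2, Finset.mem_univ _, ?_⟩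
        rw [Equiv.symm_apply_eq]
        subst hij
        rfl
    rw [h1]
    simp
  have hmpos : ∀ j, 0 < m j := by
    intro j
    rw [hm]
    simp only []
    split_ifs <;> omega
  have hms : ∀ j, (s : ℝ) ≤ m j := by
    intro j
    rw [hm]
    simp only []
    split_ifs
    · push_cast; linarith
    · exact le_refl _
  have hdpos : ∀ j, 0 < g - 1 / (m j : ℝ) := by
    intro j
    have h1 : (0 : ℝ) < m j := by exact_mod_cast hmpos j
    have h2 : 1 / (m j : ℝ) < g := by
      rw [div_lt_iff₀ h1]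
      calc (1 : ℝ) < g * s := hgs
        _ ≤ g * m j := by
          have := hms j
          gcongr
    linarith
  have hD : ∑ j, (g - 1 / (m j : ℝ)) = k * g - ((k : ℝ) - q) / s - q / ((s : ℝ) + 1) := by
    have h0 : ∀ j : Fin k, g - 1 / (m j : ℝ) =
        (fun j : ℕ => if j < q then g - 1 / ((s : ℝ) + 1) else g - 1 / (s : ℝ)) j.val := by
      intro j
      rw [hm]
      simp only []
      split_ifs
      · push_cast; ring
      · rfl
    rw [Finset.sum_congr rfl (fun j _ => h0 j),
      Fin.sum_univ_eq_sum_range (fun j : ℕ => if j < q then g - 1 / ((s : ℝ) + 1) else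
        g - 1 / (s : ℝ)) k]
    rw [Finset.sum_ite]
    have h1 : (Finset.range k).filter (fun j => j < q) = Finset.range q := by
      ext x
      simp
      omega
    have h2 : (Finset.range k).filter (fun j => ¬ j < q) = Finset.range k \ Finset.range q := by
      ext x
      simp
    rw [h1, h2, Finset.sum_const, Finset.sum_const, Finset.card_range,
      Finset.card_sdiff_of_subset (by intro x; simp; omega), Finset.card_range, Finset.card_range]
    obtain ⟨d, rfl⟩ := Nat.exists_eq_add_of_le hqk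
    simp only [nsmul_eq_mul, Nat.add_sub_cancel_left]
    push_cast
    field_simp
    ring
  set D := ∑ j, (g - 1 / (m j : ℝ)) with hDdef
  have hD1 : 1 < D := by rw [hD]; exact hgood
  have hD0 : 0 < D := by linarith
  obtain ⟨a, b, hfeas, htot⟩ := construct f (fun j => (g - 1 / (m j : ℝ)) / D) m
    (fun j => div_nonneg (hdpos j).le hD0.le)
    (by rw [← Finset.sum_div, ← hDdef, div_self hD0.ne']) hfib hmpos
  refine ⟨a, b, hfeas, ?_⟩
  intro i
  rw [htot i]
  have h1 : (g - 1 / (m (f i) : ℝ)) / D < g - 1 / (m (f i) : ℝ) := by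
    rw [div_lt_iff₀ hD0]
    have := hdpos (f i)
    nlinarith
  linarith

end construction

/-- **Answer to Q1 (affirmative).** For every positive number `r` of colours and every optimal
solution `(a, b)`, the colour total `a_i + b_i` is the same for all colours `i`. -/
theorem result : ∀ r : ℕ, 0 < r → ∀ a b : Finset (Fin r) → ℝ, Optimal r a b →
    ∀ i j : Fin r, total a b i = total a b j := by
  intro r hr a b hopt
  have : Nonempty (Fin r) := ⟨⟨0, hr⟩⟩
  have hbdd : ∀ a b : Finset (Fin r) → ℝ, BddAbove (Set.range (fun i => total a b i)) :=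
    fun a b => Set.finite_range _ |>.bddAbove
  have hle : ∀ i, total a b i ≤ maxTotal a b := fun i => le_ciSup (hbdd a b) i
  have hall : ∀ i, total a b i = maxTotal a b := by
    intro i
    by_contra hne
    have hlt : total a b i < maxTotal a b := lt_of_le_of_ne (hle i) hne
    obtain ⟨hg, hgood⟩ := good_of_slack a b hopt.1 (maxTotal a b) hle i hlt
    obtain ⟨a', b', hf', hlt'⟩ := exists_of_good (maxTotal a b) hg hgood
    have h1 := hopt.2 a' b' hf'
    obtain ⟨i', hi'⟩ := exists_eq_ciSup_of_finite (f := fun i => total a' b' i)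
    have h2 : maxTotal a' b' = total a' b' i' := hi'.symm
    rw [h2] at h1
    exact absurd (hlt' i') (not_lt.mpr h1)
  intro i j
  rw [hall i, hall j]

end Pool.Agent.Results.MP_f3ac61_co.EqualTotals
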